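import Pool.Agent.TH612.GS.Stm

/-! Job 4425 (helper612): zeta minus a short Dirichlet polynomial as a convolution operator. -/

set_option autoImplicit false

namespace Pool.Agent.TH889.GS

open Complex Filter Topology MeasureTheory Set
open Pool.Agent.TH612.GS

noncomputable section

/-- Cauchy-Schwarz with a weight -/
theorem cs {f g : ℝ → ℝ} (hf : Continuous f) (hg : Continuous g) (hf0 : ∀ t, 0 ≤ f t) {S : ℝ}
    (hS : 0 ≤ S) : (∫ t in (0:ℝ)..S, f t * g t) ^ 2 ≤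
      (∫ t in (0:ℝ)..S, f t) * ∫ t in (0:ℝ)..S, f t * g t ^ 2 := by
  have i1 : IntervalIntegrable f volume 0 S := hf.intervalIntegrable _ _
  have i2 : IntervalIntegrable (fun t => f t * g t) volume 0 S := (hf.mul hg).intervalIntegrable _ _
  have i3 : IntervalIntegrable (fun t => f t * g t ^ 2) volume 0 S :=
    (hf.mul (hg.pow 2)).intervalIntegrable _ _
  have h : ∀ x : ℝ, 0 ≤ (∫ t in (0:ℝ)..S, f t) * (x * x) + (-2 * ∫ t in (0:ℝ)..S, f t * g t) * x +
      ∫ t in (0:ℝ)..S, f t * g t ^ 2 := by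
    intro x
    have h1 : (∫ t in (0:ℝ)..S, f t) * (x * x) + (-2 * ∫ t in (0:ℝ)..S, f t * g t) * x +
      ∫ t in (0:ℝ)..S, f t * g t ^ 2 = ∫ t in (0:ℝ)..S, f t * (g t - x) ^ 2 := by
      have e : (fun t => f t * (g t - x) ^ 2) =
          fun t => (f t * g t ^ 2 - (2 * x) * (f t * g t)) + (x * x) * f t := by
        funext t; ring
      rw [e, intervalIntegral.integral_add (i3.sub (i2.const_mul _)) (i1.const_mul _),
        intervalIntegral.integral_sub i3 (i2.const_mul _), intervalIntegral.integral_const_mul,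
        intervalIntegral.integral_const_mul]
      ring
    rw [h1]
    exact intervalIntegral.integral_nonneg hS fun t _ => mul_nonneg (hf0 t) (sq_nonneg _)
  have h2 := discrim_le_zero h
  unfold discrim at h2
  nlinarith

theorem fub {f : ℝ → ℝ → ℝ} (hf : Continuous (Function.uncurry f)) {a b c d : ℝ} (hab : a ≤ b)
    (hcd : c ≤ d) : ∫ x in a..b, ∫ y in c..d, f x y = ∫ y in c..d, ∫ x in a..b, f x y := by
  simp only [intervalIntegral.integral_of_le hab, intervalIntegral.integral_of_le hcd]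
  apply integral_integral_swap
  rw [Measure.prod_restrict]
  have h1 : IntegrableOn (Function.uncurry f) (Icc a b ×ˢ Icc c d) (volume.prod volume) :=
    hf.continuousOn.integrableOn_compact (isCompact_Icc.prod isCompact_Icc)
  exact h1.mono_set (Set.prod_mono Ioc_subset_Icc_self Ioc_subset_Icc_self)

theorem part1 {e R : ℝ → ℂ} (he : Continuous e) (hR : Continuous R) {T S : ℝ} (hS : 0 ≤ S)
    (hST : S ≤ T) : ∫ y in (0:ℝ)..T, ‖∫ t in (0:ℝ)..S, e (t + y) * R t‖ ^ 2 ≤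
      (∫ u in (0:ℝ)..(2 * T), ‖e u‖) ^ 2 * ∫ t in (0:ℝ)..S, ‖R t‖ ^ 2 := by
  have hT : 0 ≤ T := hS.trans hST
  set E := ∫ u in (0:ℝ)..(2 * T), ‖e u‖ with hE
  have hE0 : 0 ≤ E := intervalIntegral.integral_nonneg (by linarith) fun _ _ => norm_nonneg _
  have hne : Continuous fun u => ‖e u‖ := he.norm
  have win : ∀ x l : ℝ, 0 ≤ x → 0 ≤ l → x + l ≤ 2 * T → ∫ u in (0:ℝ)..l, ‖e (x + u)‖ ≤ E := by
    intro x l hx hl hxl
    rw [intervalIntegral.integral_comp_add_left (fun u => ‖e u‖) x, add_zero]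
    exact intervalIntegral.integral_mono_interval hx (by linarith) hxl
      (Eventually.of_forall fun _ => norm_nonneg _) (hne.intervalIntegrable _ _)
  have hF : Continuous (Function.uncurry fun (y t : ℝ) => e (t + y) * R t) := by
    have h1 : Continuous fun p : ℝ × ℝ => p.2 + p.1 := continuous_snd.add continuous_fst
    exact (he.comp h1).mul (hR.comp continuous_snd)
  have hG : Continuous (Function.uncurry fun (y t : ℝ) => ‖e (t + y)‖ * ‖R t‖ ^ 2) := by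
    have h1 : Continuous fun p : ℝ × ℝ => p.2 + p.1 := continuous_snd.add continuous_fst
    exact (hne.comp h1).mul ((hR.norm.comp continuous_snd).pow 2)
  have c1 : Continuous fun y => ∫ t in (0:ℝ)..S, e (t + y) * R t :=
    intervalIntegral.continuous_parametric_intervalIntegral_of_continuous' hF 0 S
  have c2 : Continuous fun y => ∫ t in (0:ℝ)..S, ‖e (t + y)‖ * ‖R t‖ ^ 2 :=
    intervalIntegral.continuous_parametric_intervalIntegral_of_continuous' hG 0 S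
  have step1 : ∫ y in (0:ℝ)..T, ‖∫ t in (0:ℝ)..S, e (t + y) * R t‖ ^ 2 ≤
      ∫ y in (0:ℝ)..T, E * ∫ t in (0:ℝ)..S, ‖e (t + y)‖ * ‖R t‖ ^ 2 := by
    apply intervalIntegral.integral_mono_on hT ((c1.norm.pow 2).intervalIntegrable _ _)
      ((c2.const_mul E).intervalIntegrable _ _)
    intro y hy
    have hy0 := hy.1
    have hyT := hy.2
    have hey : Continuous fun t => ‖e (t + y)‖ := hne.comp (continuous_id.add continuous_const)
    have n1 : ‖∫ t in (0:ℝ)..S, e (t + y) * R t‖ ≤ ∫ t in (0:ℝ)..S, ‖e (t + y)‖ * ‖R t‖ := by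
      refine (intervalIntegral.norm_integral_le_integral_norm hS).trans_eq ?_
      simp only [norm_mul]
    have n2 := cs hey hR.norm (fun _ => norm_nonneg _) hS
    have n3 : ∫ t in (0:ℝ)..S, ‖e (t + y)‖ ≤ E := by
      have := win y S hy0 hS (by linarith)
      simpa only [add_comm] using this
    have n4 : 0 ≤ ∫ t in (0:ℝ)..S, ‖e (t + y)‖ * ‖R t‖ ^ 2 :=
      intervalIntegral.integral_nonneg hS fun _ _ => by positivity
    calc ‖∫ t in (0:ℝ)..S, e (t + y) * R t‖ ^ 2 ≤ (∫ t in (0:ℝ)..S, ‖e (t + y)‖ * ‖R t‖) ^ 2 :=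
          pow_le_pow_left₀ (norm_nonneg _) n1 2
      _ ≤ _ := n2
      _ ≤ _ := mul_le_mul_of_nonneg_right n3 n4
  refine step1.trans ?_
  rw [intervalIntegral.integral_const_mul, fub hG hT hS, pow_two, mul_assoc]
  refine mul_le_mul_of_nonneg_left ?_ hE0
  rw [← intervalIntegral.integral_const_mul]
  have hG' : Continuous (Function.uncurry fun (t y : ℝ) => ‖e (t + y)‖ * ‖R t‖ ^ 2) := by
    have h1 : Continuous fun p : ℝ × ℝ => p.1 + p.2 := continuous_fst.add continuous_snd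
    exact (hne.comp h1).mul ((hR.norm.comp continuous_fst).pow 2)
  apply intervalIntegral.integral_mono_on hS
    ((intervalIntegral.continuous_parametric_intervalIntegral_of_continuous' hG' 0 T).intervalIntegrable _ _)
    (((hR.norm.pow 2).const_mul E).intervalIntegrable _ _)
  intro t ht
  rw [intervalIntegral.integral_mul_const]
  exact mul_le_mul_of_nonneg_right (win t T ht.1 hT (by linarith [ht.2])) (by positivity)

theorem cont_cpow {n : ℕ} (hn : 1 ≤ n) : Continuous fun t : ℝ => (n : ℂ) ^ (-(I * t)) := by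
  have h0 : (n : ℂ) ≠ 0 := by exact_mod_cast (by omega : n ≠ 0)
  exact ((continuous_const.mul continuous_ofReal).neg).const_cpow (Or.inl h0)

theorem cont_z : Continuous z := by
  rw [continuous_iff_continuousAt]
  intro u
  have h1 : ContinuousAt (fun u : ℝ => (1 / 2 + I * u : ℂ)) u := by
    exact (continuous_const.add (continuous_const.mul continuous_ofReal)).continuousAt
  have h2 : (1 / 2 + I * u : ℂ) ≠ 1 := by
    intro h
    have := congrArg Complex.re h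
    norm_num at this
  have h3 : ContinuousAt riemannZeta ((fun u : ℝ => (1 / 2 + I * u : ℂ)) u) :=
    (differentiableAt_riemannZeta h2).continuousAt
  exact ContinuousAt.comp (f := fun u : ℝ => (1 / 2 + I * u : ℂ)) h3 h1

/-- coefficients -/
def bb (N n : ℕ) : ℂ := if N < n then (n : ℂ) ^ (-(1 / 2 : ℂ)) else 0

theorem term_eq {n : ℕ} (hn : 1 ≤ n) (t y : ℝ) :
    (n : ℂ) ^ (-(1 / 2 + I * ((t + y : ℝ) : ℂ))) =
      (n : ℂ) ^ (-(1 / 2 : ℂ)) * (n : ℂ) ^ (-(I * t)) * (n : ℂ) ^ (-(I * y)) := by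
  have h0 : (n : ℂ) ≠ 0 := by exact_mod_cast (by omega : n ≠ 0)
  rw [← Complex.cpow_add _ _ h0, ← Complex.cpow_add _ _ h0]
  congr 1
  push_cast
  ring

theorem cont_PN (N : ℕ) : Continuous (PN N) := by
  unfold PN zN
  apply continuous_finsetSum
  intro n hn
  have hn1 := (Finset.mem_Icc.1 hn).1
  have h0 : (n : ℂ) ≠ 0 := by exact_mod_cast (by omega : n ≠ 0)
  exact ((continuous_const.add (continuous_const.mul continuous_ofReal)).neg).const_cpow (Or.inl h0)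

theorem diff_eq {N X : ℕ} (hNX : N ≤ X) (t y : ℝ) : PN X (t + y) - PN N (t + y) =
    ∑ n ∈ Finset.Icc 1 X, bb N n * (n : ℂ) ^ (-(I * t)) * (n : ℂ) ^ (-(I * y)) := by
  have h1 : ∑ n ∈ Finset.Icc 1 X, bb N n * (n : ℂ) ^ (-(I * t)) * (n : ℂ) ^ (-(I * y)) =
      ∑ n ∈ Finset.Icc 1 X, ((n : ℂ) ^ (-(1 / 2 + I * ((t + y : ℝ) : ℂ))) -
        if n ≤ N then (n : ℂ) ^ (-(1 / 2 + I * ((t + y : ℝ) : ℂ))) else 0) := by
    refine Finset.sum_congr rfl fun n hn => ?_
    have hn1 := (Finset.mem_Icc.1 hn).1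
    unfold bb
    by_cases h : N < n
    · rw [if_pos h, if_neg (not_le.2 h), sub_zero, term_eq hn1]
    · rw [if_neg h, if_pos (not_lt.1 h), sub_self, zero_mul, zero_mul]
  rw [h1, Finset.sum_sub_distrib, ← Finset.sum_filter]
  have h2 : (Finset.Icc 1 X).filter (fun n => n ≤ N) = Finset.Icc 1 N := by
    ext n
    rw [Finset.mem_filter, Finset.mem_Icc, Finset.mem_Icc]
    omega
  rw [h2]
  rfl

theorem norm_bb {N n : ℕ} (h : N < n) : ‖bb N n‖ ^ 2 = 1 / n := by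
  have h0 : 0 < n := by omega
  unfold bb
  rw [if_pos h, Complex.norm_natCast_cpow_of_pos h0]
  have h1 : (0 : ℝ) < n := by exact_mod_cast h0
  rw [← Real.rpow_natCast, ← Real.rpow_mul h1.le]
  norm_num
  rw [Real.rpow_neg_one]

theorem part2 {C1 C2 : ℝ} (hC1 : 0 < C1) (hC2 : 0 < C2)
    (hMV : ∀ (T : ℝ) (X : ℕ) (a : ℕ → ℂ), 1 ≤ T → (X : ℝ) ≤ T ^ 2 →
      ∫ u in (0:ℝ)..(2 * T), ‖∑ n ∈ Finset.Icc 1 X, a n * (n : ℂ) ^ (-(I * u))‖ ^ 2 ≤
        C1 * ∑ n ∈ Finset.Icc 1 X, (T + n) * ‖a n‖ ^ 2)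
    (hMVD : ∀ (T S : ℝ) (X : ℕ) (R : ℝ → ℂ), 1 ≤ T → 0 ≤ S → S ≤ T →
      (X : ℝ) ≤ T ^ 2 → Continuous R →
      ∑ n ∈ Finset.Icc 1 X, ‖∫ t in (0:ℝ)..S, R t * (n : ℂ) ^ (-(I * t))‖ ^ 2 / (T + n) ≤
        C2 * ∫ t in (0:ℝ)..S, ‖R t‖ ^ 2)
    {T S : ℝ} {N X : ℕ} {R : ℝ → ℂ} (hT : 1 ≤ T) (hS : 0 ≤ S) (hST : S ≤ T) (hN : 1 ≤ N)
    (hNT : (N : ℝ) ≤ T ^ (1 / 2 : ℝ)) (hNX : N ≤ X) (hX2 : (X : ℝ) ≤ 2 * T ^ (5 / 4 : ℝ))
    (hXT : (X : ℝ) ≤ T ^ 2) (hR : Continuous R) :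
    ∫ y in (0:ℝ)..T, ‖∫ t in (0:ℝ)..S, (PN X (t + y) - PN N (t + y)) * R t‖ ^ 2 ≤
      8 * C1 * C2 * (T ^ 2 / N) * ∫ t in (0:ℝ)..S, ‖R t‖ ^ 2 := by
  have hT0 : 0 < T := by linarith
  have hN0 : (0 : ℝ) < N := by exact_mod_cast hN
  obtain ⟨c, hc⟩ : ∃ c : ℕ → ℂ, c = fun n : ℕ => ∫ t in (0:ℝ)..S, R t * (n : ℂ) ^ (-(I * t)) :=
    ⟨_, rfl⟩
  have hin : ∀ y : ℝ, ∫ t in (0:ℝ)..S, (PN X (t + y) - PN N (t + y)) * R t =
      ∑ n ∈ Finset.Icc 1 X, (bb N n * c n) * (n : ℂ) ^ (-(I * y)) := by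
    intro y
    have h1 : ∀ t : ℝ, (PN X (t + y) - PN N (t + y)) * R t =
        ∑ n ∈ Finset.Icc 1 X, (bb N n * (n : ℂ) ^ (-(I * y))) * (R t * (n : ℂ) ^ (-(I * t))) := by
      intro t
      rw [diff_eq hNX, Finset.sum_mul]
      exact Finset.sum_congr rfl fun n _ => by ring
    simp only [h1]
    rw [intervalIntegral.integral_finsetSum]
    · refine Finset.sum_congr rfl fun n _ => ?_
      rw [intervalIntegral.integral_const_mul, hc]
      ring
    · intro n hn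
      have hn1 := (Finset.mem_Icc.1 hn).1
      exact ((hR.mul (cont_cpow hn1)).const_mul _).intervalIntegrable _ _
  simp only [hin]
  have hcont : Continuous fun y : ℝ => ‖∑ n ∈ Finset.Icc 1 X, (bb N n * c n) *
      (n : ℂ) ^ (-(I * y))‖ ^ 2 := by
    refine Continuous.pow (Continuous.norm ?_) 2
    apply continuous_finsetSum
    intro n hn
    exact (cont_cpow (Finset.mem_Icc.1 hn).1).const_mul _
  have h1 : ∫ y in (0:ℝ)..T, ‖∑ n ∈ Finset.Icc 1 X, (bb N n * c n) * (n : ℂ) ^ (-(I * y))‖ ^ 2 ≤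
      ∫ y in (0:ℝ)..(2 * T), ‖∑ n ∈ Finset.Icc 1 X, (bb N n * c n) *
        (n : ℂ) ^ (-(I * y))‖ ^ 2 :=
    intervalIntegral.integral_mono_interval le_rfl hT0.le (by linarith)
      (Eventually.of_forall fun _ => by positivity) (hcont.intervalIntegrable _ _)
  have h2 := hMV T X (fun n => bb N n * c n) hT hXT
  have h3 := hMVD T S X R hT hS hST hXT hR
  have h4 : ∑ n ∈ Finset.Icc 1 X, (T + n) * ‖bb N n * c n‖ ^ 2 ≤
      (8 * (T ^ 2 / N)) * ∑ n ∈ Finset.Icc 1 X,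
        ‖∫ t in (0:ℝ)..S, R t * (n : ℂ) ^ (-(I * t))‖ ^ 2 / (T + n) := by
    rw [Finset.mul_sum]
    refine Finset.sum_le_sum fun n hn => ?_
    have hn1 : (1 : ℝ) ≤ n := by exact_mod_cast (Finset.mem_Icc.1 hn).1
    have hnX : (n : ℝ) ≤ X := by exact_mod_cast (Finset.mem_Icc.1 hn).2
    have hcn : c n = ∫ t in (0:ℝ)..S, R t * (n : ℂ) ^ (-(I * t)) := by rw [hc]
    rw [← hcn, norm_mul, mul_pow]
    have hTn : 0 < T + n := by linarith
    by_cases h : N < n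
    · rw [norm_bb h]
      have hNn : (N : ℝ) ≤ n := by exact_mod_cast h.le
      have hkey : (T + n) ^ 2 / n ≤ 8 * (T ^ 2 / N) := by
        rcases le_or_gt (n : ℝ) T with hnT | hnT
        · have a1 : (T + n) ^ 2 ≤ 4 * T ^ 2 := by nlinarith
          calc (T + n) ^ 2 / n ≤ 4 * T ^ 2 / n := by gcongr
            _ ≤ 4 * T ^ 2 / N := by gcongr
            _ ≤ 8 * (T ^ 2 / N) := by
              have : 0 ≤ T ^ 2 / N := by positivity
              rw [mul_div_assoc]; linarith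
        · have a1 : (T + n) ^ 2 ≤ 4 * n * n := by nlinarith
          have a2 : (T + n) ^ 2 / n ≤ 4 * n := by
            rw [div_le_iff₀ (by linarith)]; exact a1
          have a3 : T ^ (5 / 4 : ℝ) ≤ T ^ 2 / N := by
            rw [le_div_iff₀ hN0]
            calc T ^ (5 / 4 : ℝ) * N ≤ T ^ (5 / 4 : ℝ) * T ^ (1 / 2 : ℝ) := by gcongr
              _ = T ^ (5 / 4 + 1 / 2 : ℝ) := (Real.rpow_add hT0 _ _).symm
              _ ≤ T ^ (2 : ℝ) := Real.rpow_le_rpow_of_exponent_le hT (by norm_num)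
              _ = T ^ 2 := by norm_cast
          linarith
      have h5 : (T + n) * (1 / n * ‖c n‖ ^ 2) = (T + n) ^ 2 / n * (‖c n‖ ^ 2 / (T + n)) := by
        field_simp
      rw [h5]
      exact mul_le_mul_of_nonneg_right hkey (by positivity)
    · unfold bb
      rw [if_neg h]
      simp only [norm_zero]
      have : (T + ↑n) * (0 ^ 2 * ‖c n‖ ^ 2) = 0 := by ring
      rw [this]
      positivity
  calc _ ≤ _ := h1
    _ ≤ _ := h2
    _ ≤ C1 * ((8 * (T ^ 2 / N)) * (C2 * ∫ t in (0:ℝ)..S, ‖R t‖ ^ 2)) := by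
      refine mul_le_mul_of_nonneg_left (h4.trans ?_) hC1.le
      exact mul_le_mul_of_nonneg_left h3 (by positivity)
    _ = _ := by ring

theorem t_OP (hMV : S_MV) (hMVD : S_MVD) (hAP : S_AP) : S_OP := by
  obtain ⟨C1, hC1, h1⟩ := hMV
  obtain ⟨C2, hC2, h2⟩ := hMVD
  obtain ⟨C3, T3, hC3, hT3, h3⟩ := hAP
  refine ⟨2 * C3 ^ 2 + 16 * C1 * C2, max T3 3, by positivity, le_max_of_le_left hT3, ?_⟩
  intro T S N R hT hS hST hN hNT hR
  have hTT3 : T3 ≤ T := (le_max_left _ _).trans hT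
  have hT3' : 3 ≤ T := (le_max_right _ _).trans hT
  have hT1 : 1 ≤ T := by linarith
  have hT0 : 0 < T := by linarith
  have hN0 : (0 : ℝ) < N := by exact_mod_cast hN
  obtain ⟨X, hX⟩ : ∃ X : ℕ, X = ⌈T ^ (5 / 4 : ℝ)⌉₊ := ⟨_, rfl⟩
  have hX1 : T ^ (5 / 4 : ℝ) ≤ X := by rw [hX]; exact Nat.le_ceil _
  have hone : 1 ≤ T ^ (5 / 4 : ℝ) := Real.one_le_rpow hT1 (by norm_num)
  have hX2 : (X : ℝ) ≤ 2 * T ^ (5 / 4 : ℝ) := by
    have := Nat.ceil_lt_add_one (a := T ^ (5 / 4 : ℝ)) (by positivity)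
    rw [← hX] at this
    linarith
  have hXT : (X : ℝ) ≤ T ^ 2 := by
    have a1 : (2 : ℝ) ≤ T ^ (3 / 4 : ℝ) := by
      have b1 : (2 : ℝ) = ((2 : ℝ) ^ (4 / 3 : ℝ)) ^ (3 / 4 : ℝ) := by
        rw [← Real.rpow_mul (by norm_num)]; norm_num
      rw [b1]
      apply Real.rpow_le_rpow (by positivity) _ (by norm_num)
      have b2 : ((2 : ℝ) ^ (4 / 3 : ℝ)) ^ (3 : ℝ) ≤ (3 : ℝ) ^ (3 : ℝ) := by
        rw [← Real.rpow_mul (by norm_num)]
        norm_num
      have b3 := (Real.rpow_le_rpow_iff (by positivity) (by norm_num) (by norm_num : (0:ℝ) < 3)).1 b2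
      linarith
    calc (X : ℝ) ≤ 2 * T ^ (5 / 4 : ℝ) := hX2
      _ ≤ T ^ (3 / 4 : ℝ) * T ^ (5 / 4 : ℝ) := by gcongr
      _ = T ^ (3 / 4 + 5 / 4 : ℝ) := (Real.rpow_add hT0 _ _).symm
      _ = T ^ (2 : ℝ) := by norm_num
      _ = T ^ 2 := by norm_cast
  have hNX : N ≤ X := by
    have : (N : ℝ) ≤ X := by
      refine hNT.trans (le_trans ?_ hX1)
      exact Real.rpow_le_rpow_of_exponent_le hT1 (by norm_num)
    exact_mod_cast this
  have he : Continuous fun u => z u - PN X u := cont_z.sub (cont_PN X)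
  have hd : Continuous fun u => PN X u - PN N u := (cont_PN X).sub (cont_PN N)
  have p1 := part1 he hR hS hST
  have p2 := part2 hC1 hC2 h1 h2 hT1 hS hST hN hNT hNX hX2 hXT hR
  have p3 := h3 T X hTT3 hX1 hX2
  set W := ∫ t in (0:ℝ)..S, ‖R t‖ ^ 2 with hW
  have hW0 : 0 ≤ W := intervalIntegral.integral_nonneg hS fun _ _ => by positivity
  have p4 : (∫ u in (0:ℝ)..(2 * T), ‖z u - PN X u‖) ^ 2 ≤ C3 ^ 2 * (T ^ 2 / N) := by
    have a1 : 0 ≤ ∫ u in (0:ℝ)..(2 * T), ‖z u - PN X u‖ :=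
      intervalIntegral.integral_nonneg (by linarith) fun _ _ => norm_nonneg _
    have a2 : (T ^ (3 / 4 : ℝ)) ^ 2 ≤ T ^ 2 / N := by
      rw [le_div_iff₀ hN0]
      calc (T ^ (3 / 4 : ℝ)) ^ 2 * N ≤ (T ^ (3 / 4 : ℝ)) ^ 2 * T ^ (1 / 2 : ℝ) := by gcongr
        _ = T ^ (3 / 4 * 2 + 1 / 2 : ℝ) := by
          rw [← Real.rpow_natCast, ← Real.rpow_mul hT0.le, ← Real.rpow_add hT0]
          norm_num
        _ = T ^ (2 : ℝ) := by norm_num
        _ = T ^ 2 := by norm_cast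
    calc _ ≤ (C3 * T ^ (3 / 4 : ℝ)) ^ 2 := pow_le_pow_left₀ a1 p3 2
      _ = C3 ^ 2 * (T ^ (3 / 4 : ℝ)) ^ 2 := by ring
      _ ≤ _ := by gcongr
  have cF : ∀ g : ℝ → ℂ, Continuous g →
      Continuous fun y : ℝ => ∫ t in (0:ℝ)..S, g (t + y) * R t := by
    intro g hg
    have hF : Continuous (Function.uncurry fun (y t : ℝ) => g (t + y) * R t) := by
      have h1 : Continuous fun p : ℝ × ℝ => p.2 + p.1 := continuous_snd.add continuous_fst
      exact (hg.comp h1).mul (hR.comp continuous_snd)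
    exact intervalIntegral.continuous_parametric_intervalIntegral_of_continuous' hF 0 S
  have hsplit : ∀ y : ℝ, ‖∫ t in (0:ℝ)..S, (z (t + y) - PN N (t + y)) * R t‖ ^ 2 ≤
      2 * ‖∫ t in (0:ℝ)..S, (z (t + y) - PN X (t + y)) * R t‖ ^ 2 +
      2 * ‖∫ t in (0:ℝ)..S, (PN X (t + y) - PN N (t + y)) * R t‖ ^ 2 := by
    intro y
    have ht : Continuous fun t : ℝ => t + y := continuous_id.add continuous_const
    have a1 : ∫ t in (0:ℝ)..S, (z (t + y) - PN N (t + y)) * R t =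
        (∫ t in (0:ℝ)..S, (z (t + y) - PN X (t + y)) * R t) +
        ∫ t in (0:ℝ)..S, (PN X (t + y) - PN N (t + y)) * R t := by
      rw [← intervalIntegral.integral_add]
      · exact intervalIntegral.integral_congr fun t _ => by ring
      · exact ((he.comp ht).mul hR).intervalIntegrable _ _
      · exact ((hd.comp ht).mul hR).intervalIntegrable _ _
    rw [a1]
    have a2 := norm_add_le (∫ t in (0:ℝ)..S, (z (t + y) - PN X (t + y)) * R t)
      (∫ t in (0:ℝ)..S, (PN X (t + y) - PN N (t + y)) * R t)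
    have a3 := norm_nonneg (∫ t in (0:ℝ)..S, (z (t + y) - PN X (t + y)) * R t)
    have a4 := norm_nonneg (∫ t in (0:ℝ)..S, (PN X (t + y) - PN N (t + y)) * R t)
    refine (pow_le_pow_left₀ (norm_nonneg _) a2 2).trans ?_
    nlinarith [sq_nonneg (‖∫ t in (0:ℝ)..S, (z (t + y) - PN X (t + y)) * R t‖ -
      ‖∫ t in (0:ℝ)..S, (PN X (t + y) - PN N (t + y)) * R t‖)]
  have q1 : IntervalIntegrable (fun y : ℝ => 2 * ‖∫ t in (0:ℝ)..S,
      (z (t + y) - PN X (t + y)) * R t‖ ^ 2) volume 0 T :=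
    (((cF _ he).norm.pow 2).const_mul 2).intervalIntegrable _ _
  have q2 : IntervalIntegrable (fun y : ℝ => 2 * ‖∫ t in (0:ℝ)..S,
      (PN X (t + y) - PN N (t + y)) * R t‖ ^ 2) volume 0 T :=
    (((cF _ hd).norm.pow 2).const_mul 2).intervalIntegrable _ _
  have q3 : IntervalIntegrable (fun y : ℝ => ‖∫ t in (0:ℝ)..S,
      (z (t + y) - PN N (t + y)) * R t‖ ^ 2) volume 0 T :=
    ((cF _ (cont_z.sub (cont_PN N))).norm.pow 2).intervalIntegrable _ _
  have q4 := intervalIntegral.integral_mono_on hT0.le q3 (q1.add q2) fun y _ => hsplit y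
  rw [intervalIntegral.integral_add q1 q2, intervalIntegral.integral_const_mul,
    intervalIntegral.integral_const_mul] at q4
  have q5 := mul_le_mul_of_nonneg_right p4 hW0
  have q6 : (2 * C3 ^ 2 + 16 * C1 * C2) * T ^ 2 / N * W =
      2 * (C3 ^ 2 * (T ^ 2 / N) * W) + 2 * (8 * C1 * C2 * (T ^ 2 / N) * W) := by ring
  rw [q6]
  linarith

end

end Pool.Agent.TH889.GS
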